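import Mathlib.GroupTheory.Perm.Basic
import Mathlib.GroupTheory.GroupAction.Quotient
import Mathlib.GroupTheory.Index
import Mathlib.Data.Finset.Max
import Mathlib.Data.Nat.Log
import Mathlib.Tactic.Group

/-! # Base sizes of symmetric groups never exceed the degree -/

namespace Pool.Agent.Results.MP_3e5dca_al.BaseSizeBound

open Equiv

/-- A base of an action: a set of points with trivial pointwise stabilizer. -/
def IsBase (G : Type) {X : Type} [Group G] [MulAction G X] (B : Finset X) : Prop :=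
  ∀ g : G, (∀ x ∈ B, g • x = x) → g = 1

/-- `b` is the base size of the action: the least cardinality of a base. -/
def HasBaseSize (G X : Type) [Group G] [MulAction G X] (b : ℕ) : Prop :=
  (∃ B : Finset X, IsBase G B ∧ B.card = b) ∧ ∀ B : Finset X, IsBase G B → b ≤ B.card

section Cycles

variable {Ω : Type} [DecidableEq Ω]

/-- The three-cycle `a → b → c → a`. -/
def T (a b c : Ω) : Perm Ω := swap a b * swap b c

theorem T_conj (g : Perm Ω) (a b c : Ω) : g * T a b c * g⁻¹ = T (g a) (g b) (g c) := by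
  unfold T
  rw [Equiv.swap_apply_apply, Equiv.swap_apply_apply]
  group

theorem T_inv (a b c : Ω) : (T a b c)⁻¹ = T c b a := by
  unfold T
  rw [mul_inv_rev, swap_inv, swap_inv, swap_comm b c, swap_comm a b]

theorem T_fst {a b c : Ω} (hab : a ≠ b) (hac : a ≠ c) : T a b c a = b := by
  unfold T
  rw [Perm.mul_apply, swap_apply_of_ne_of_ne hab hac, swap_apply_left]

theorem T_snd {a b c : Ω} (hac : a ≠ c) (hbc : b ≠ c) : T a b c b = c := by
  unfold T
  rw [Perm.mul_apply, swap_apply_left, swap_apply_of_ne_of_ne (Ne.symm hac) (Ne.symm hbc)]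

theorem T_trd (a b c : Ω) : T a b c c = a := by
  unfold T
  rw [Perm.mul_apply, swap_apply_right, swap_apply_right]

theorem T_of_ne {a b c x : Ω} (ha : x ≠ a) (hb : x ≠ b) (hc : x ≠ c) : T a b c x = x := by
  unfold T
  rw [Perm.mul_apply, swap_apply_of_ne_of_ne hb hc, swap_apply_of_ne_of_ne ha hb]

theorem T_cyc {a b c : Ω} (hab : a ≠ b) (hac : a ≠ c) (hbc : b ≠ c) : T a b c = T b c a := by
  ext x
  by_cases h1 : x = a
  · rw [h1, T_fst hab hac, T_trd]
  by_cases h2 : x = b
  · rw [h2, T_snd hac hbc, T_fst hbc hab.symm]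
  by_cases h3 : x = c
  · rw [h3, T_trd, T_snd hab.symm hac.symm]
  rw [T_of_ne h1 h2 h3, T_of_ne h2 h3 h1]

variable (H : Subgroup (Perm Ω))

theorem mem_cyc {a b c : Ω} (hab : a ≠ b) (hac : a ≠ c) (hbc : b ≠ c) (h : T a b c ∈ H) :
    T b c a ∈ H := by rwa [← T_cyc hab hac hbc]

theorem mem_inv {a b c : Ω} (h : T a b c ∈ H) : T c b a ∈ H := by
  rw [← T_inv]; exact H.inv_mem h

theorem mem_conj {g : Perm Ω} (hg : g ∈ H) {a b c : Ω} (h : T a b c ∈ H) :
    T (g a) (g b) (g c) ∈ H := by
  rw [← T_conj]; exact H.mul_mem (H.mul_mem hg h) (H.inv_mem hg)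

/-- The product of a transposition and a conjugate. -/
theorem mem_swap {k : Perm Ω} {i j : Ω} (hk : k ∈ H) (hkt : swap i j * k * swap i j ∈ H) :
    swap i j * swap (k i) (k j) ∈ H := by
  have h1 : swap i j * swap (k i) (k j) = (swap i j * k * swap i j) * k⁻¹ := by
    rw [Equiv.swap_apply_apply]; group
  rw [h1]
  exact H.mul_mem hkt (H.inv_mem hk)

/-- If there are no three-cycles, an element fixing `i` fixes `j`. -/
theorem fix_of_fix (hno : ∀ a b c : Ω, a ≠ b → a ≠ c → b ≠ c → T a b c ∉ H) {k : Perm Ω}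
    {i j : Ω} (hij : i ≠ j) (hk : k ∈ H) (hkt : swap i j * k * swap i j ∈ H) (hki : k i = i) :
    k j = j := by
  by_contra hne
  have h1 := mem_swap H hk hkt
  rw [hki, swap_comm i j] at h1
  have h2 : k j ≠ i := by
    intro h
    exact hij (k.injective (hki.trans h.symm))
  exact hno j i (k j) hij.symm (Ne.symm hne) h2.symm h1

/-- `S` has at least three elements and all three-cycles supported in `S` lie in `H`. -/
def Good (S : Finset Ω) : Prop :=
  3 ≤ S.card ∧ ∀ a ∈ S, ∀ b ∈ S, ∀ c ∈ S, a ≠ b → a ≠ c → b ≠ c → T a b c ∈ H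

theorem exists_two {S : Finset Ω} (hS : 3 ≤ S.card) (u : Ω) :
    ∃ a ∈ S, ∃ b ∈ S, a ≠ u ∧ b ≠ u ∧ a ≠ b := by
  have h1 : 2 ≤ (S.erase u).card := by
    have := Finset.pred_card_le_card_erase (s := S) (a := u)
    omega
  obtain ⟨a, ha, b, hb, hab⟩ := Finset.one_lt_card.mp (by omega : 1 < (S.erase u).card)
  exact ⟨a, Finset.mem_of_mem_erase ha, b, Finset.mem_of_mem_erase hb,
    Finset.ne_of_mem_erase ha, Finset.ne_of_mem_erase hb, hab⟩

theorem good_insert {S : Finset Ω} (hS : Good H S) {u j l : Ω} (hu : u ∈ S) (hj : j ∉ S)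
    (hlu : l ≠ u) (hlj : l ≠ j) (h : T u j l ∈ H) : Good H (insert j S) := by
  have huj : u ≠ j := fun h => hj (h ▸ hu)
  have hne : ∀ {x}, x ∈ S → x ≠ j := fun hx h => hj (h ▸ hx)
  -- a first three-cycle `T a b j` with `a, b ∈ S`
  have h1 : ∃ a ∈ S, ∃ b ∈ S, a ≠ b ∧ T a b j ∈ H := by
    by_cases hl : l ∈ S
    · refine ⟨l, hl, u, hu, hlu, ?_⟩
      exact mem_cyc H hlj.symm huj.symm hlu (mem_cyc H huj hlu.symm hlj.symm h)
    · obtain ⟨a, ha, b, hb, hau, hbu, hab⟩ := exists_two hS.1 u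
      refine ⟨a, ha, b, hb, hab, ?_⟩
      have h2 := mem_conj H h (hS.2 a ha b hb u hu hab hau hbu)
      rw [T_fst huj hlu.symm, T_of_ne hau (hne ha) (fun h : a = l => hl (h ▸ ha)),
        T_of_ne hbu (hne hb) (fun h : b = l => hl (h ▸ hb))] at h2
      exact h2
  obtain ⟨a, ha, b, hb, hab, hQ⟩ := h1
  -- symmetry and propagation
  have hsym : ∀ x ∈ S, ∀ y ∈ S, x ≠ y → T x y j ∈ H → T y x j ∈ H := by
    intro x hx y hy hxy hxyj
    exact mem_cyc H (hne hy).symm (hne hx).symm hxy.symm (mem_inv H hxyj)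
  have hprop : ∀ x ∈ S, ∀ y ∈ S, ∀ w ∈ S, x ≠ y → w ≠ x → w ≠ y → T x y j ∈ H →
      T y w j ∈ H := by
    intro x hx y hy w hw hxy hwx hwy hxyj
    have h2 := mem_conj H (hS.2 x hx y hy w hw hxy hwx.symm hwy.symm) hxyj
    rwa [T_fst hxy hwx.symm, T_snd hwx.symm hwy.symm,
      T_of_ne (hne hx).symm (hne hy).symm (hne hw).symm] at h2
  have hstar : ∀ w ∈ S, w ≠ b → T b w j ∈ H := by
    intro w hw hwb
    by_cases hwa : w = a
    · rw [hwa]; exact hsym a ha b hb hab hQ
    · exact hprop a ha b hb w hw hab hwa hwb hQ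
  have hall : ∀ c ∈ S, ∀ d ∈ S, c ≠ d → T c d j ∈ H := by
    intro c hc d hd hcd
    by_cases hcb : c = b
    · rw [hcb]; exact hstar d hd (by rw [← hcb]; exact hcd.symm)
    by_cases hdb : d = b
    · rw [hdb]; exact hsym b hb c hc (Ne.symm hcb) (hstar c hc hcb)
    exact hprop b hb c hc d hd (Ne.symm hcb) hdb hcd.symm (hstar c hc hcb)
  refine ⟨?_, ?_⟩
  · rw [Finset.card_insert_of_notMem hj]
    have := hS.1
    omega
  · intro x hx y hy z hz hxy hxz hyz
    rw [Finset.mem_insert] at hx hy hz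
    rcases hx with rfl | hx
    · have hy' : y ∈ S := hy.resolve_left hxy.symm
      have hz' : z ∈ S := hz.resolve_left hxz.symm
      rw [T_cyc hxy hxz hyz]
      exact hall y hy' z hz' hyz
    rcases hy with rfl | hy
    · have hz' : z ∈ S := hz.resolve_left hyz.symm
      rw [T_cyc hxy hxz hyz, T_cyc hyz hxy.symm hxz.symm]
      exact hall z hz' x hx hxz.symm
    rcases hz with rfl | hz
    · exact hall x hx y hy hxy
    · exact hS.2 x hx y hy z hz hxy hxz hyz

/-- Elements of `H ∩ H^(i j)` preserve `{i, j}` if `i` lies in a maximal good set and `j` does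
not. -/
theorem preserves {S : Finset Ω} (hS : Good H S) {i j : Ω} (hi : i ∈ S) (hj : j ∉ S)
    (hmax : ¬ Good H (insert j S)) {k : Perm Ω} (hk : k ∈ H)
    (hkt : swap i j * k * swap i j ∈ H) : (k i = i ∧ k j = j) ∨ (k i = j ∧ k j = i) := by
  have hij : i ≠ j := fun h => hj (h ▸ hi)
  have hne : ∀ {x}, x ∈ S → x ≠ j := fun hx h => hj (h ▸ hx)
  have hcontra : ∀ u ∈ S, ∀ l, l ≠ u → l ≠ j → T u j l ∉ H :=
    fun u hu l hlu hlj h => hmax (good_insert H hS hu hj hlu hlj h)
  have hd := mem_swap H hk hkt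
  have hkij : k i ≠ k j := fun h => hij (k.injective h)
  by_cases h1 : k i = i
  · by_cases h2 : k j = j
    · exact Or.inl ⟨h1, h2⟩
    · exfalso
      have h3 : k j ≠ i := fun h => hkij (h1.trans h.symm)
      rw [h1, swap_comm i j] at hd
      -- `T j i (k j)`
      have h4 : T (k j) i j ∈ H := mem_inv H hd
      exact hcontra i hi (k j) h3 h2 (mem_cyc H h3 h2 hij h4)
  by_cases h2 : k i = j
  · by_cases h3 : k j = i
    · exact Or.inr ⟨h2, h3⟩
    · exfalso
      have h4 : k j ≠ j := fun h => hkij (h2.trans h.symm)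
      rw [h2] at hd
      exact hcontra i hi (k j) h3 h4 hd
  exfalso
  by_cases h3 : k j = i
  · rw [h3, swap_comm i j, swap_comm (k i) i] at hd
    have h4 : T (k i) i j ∈ H := mem_inv H hd
    exact hcontra i hi (k i) h1 h2 (mem_cyc H h1 h2 hij h4)
  by_cases h4 : k j = j
  · rw [h4, swap_comm (k i) j] at hd
    exact hcontra i hi (k i) h1 h2 hd
  -- the disjoint case
  set d := swap i j * swap (k i) (k j) with hdd
  have hdi : d i = j := by
    rw [hdd, Perm.mul_apply, swap_apply_of_ne_of_ne (Ne.symm h1) (Ne.symm h3), swap_apply_left]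
  have hex : ∃ a ∈ S, a ≠ i ∧ d a ∈ S := by
    by_cases h5 : ∃ a ∈ S, a ≠ i ∧ a ≠ k i ∧ a ≠ k j
    · obtain ⟨a, ha, hai, ha1, ha2⟩ := h5
      refine ⟨a, ha, hai, ?_⟩
      rw [hdd, Perm.mul_apply, swap_apply_of_ne_of_ne ha1 ha2, swap_apply_of_ne_of_ne hai (hne ha)]
      exact ha
    · push Not at h5
      obtain ⟨a, ha, b, hb, hai, hbi, hab⟩ := exists_two hS.1 i
      have hor : ∀ x ∈ S, x ≠ i → x = k i ∨ x = k j := by
        intro x hx hxi
        by_cases h6 : x = k i
        · exact Or.inl h6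
        · exact Or.inr (h5 x hx hxi h6)
      have hboth : k i ∈ S ∧ k j ∈ S := by
        rcases hor a ha hai with h6 | h6 <;> rcases hor b hb hbi with h7 | h7
        · exact absurd (h6.trans h7.symm) hab
        · exact ⟨h6 ▸ ha, h7 ▸ hb⟩
        · exact ⟨h7 ▸ hb, h6 ▸ ha⟩
        · exact absurd (h6.trans h7.symm) hab
      refine ⟨k i, hboth.1, h1, ?_⟩
      rw [hdd, Perm.mul_apply, swap_apply_left, swap_apply_of_ne_of_ne h3 h4]
      exact hboth.2
  obtain ⟨a, ha, hai, hda⟩ := hex
  obtain ⟨b, hb, hbi, hba⟩ : ∃ b ∈ S, b ≠ i ∧ b ≠ a := by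
    obtain ⟨x, hx, y, hy, hxi, hyi, hxy⟩ := exists_two hS.1 i
    by_cases h5 : x = a
    · exact ⟨y, hy, hyi, fun h => hxy (h5.trans h.symm)⟩
    · exact ⟨x, hx, hxi, h5⟩
  have h5 := mem_conj H hd (hS.2 i hi a ha b hb hai.symm hbi.symm hba.symm)
  rw [hdi] at h5
  have h6 : d b ≠ d a := fun h => hba (d.injective h)
  have h7 : d b ≠ j := by
    intro h
    exact hbi (d.injective (h.trans hdi.symm))
  have h8 : T (d b) (d a) j ∈ H := mem_inv H h5
  exact hcontra (d a) hda (d b) h6 h7 (mem_cyc H h6 h7 (hne hda) h8)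

end Cycles

section Action

set_option linter.unusedSectionVars false

variable {Ω X : Type} [Fintype Ω] [DecidableEq Ω] [Finite X] [MulAction (Perm Ω) X]

/-- The pointwise stabilizer of a finite set of points. -/
def fixer (G : Type) {X : Type} [Group G] [MulAction G X] (P : Finset X) : Subgroup G where
  carrier := {g | ∀ x ∈ P, g • x = x}
  one_mem' := fun x _ => one_smul _ x
  mul_mem' := fun {a b} ha hb x hx => by rw [mul_smul, hb x hx, ha x hx]
  inv_mem' := fun {a} ha x hx => by rw [inv_smul_eq_iff, ha x hx]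

theorem mem_fixer {G : Type} {X : Type} [Group G] [MulAction G X] {P : Finset X} {g : G} :
    g ∈ fixer G P ↔ ∀ x ∈ P, g • x = x := Iff.rfl

/-- Extending a set of points to a base. -/
theorem extend {G : Type} [Group G] [Finite G] {X : Type} [MulAction G X] [FaithfulSMul G X] :
    ∀ (e : ℕ) (P : Finset X), Nat.card (fixer G P) < 2 ^ (e + 1) →
      ∃ B : Finset X, IsBase G B ∧ B.card ≤ P.card + e := by
  classical
  intro e
  induction e with
  | zero =>
    intro P hP
    refine ⟨P, fun g hg => ?_, le_refl _⟩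
    have h1 : Nat.card (fixer G P) = 1 := by
      have : 0 < Nat.card (fixer G P) := Nat.card_pos
      omega
    have h2 := Subgroup.card_eq_one.mp h1
    have h3 : g ∈ fixer G P := hg
    rw [h2, Subgroup.mem_bot] at h3
    exact h3
  | succ e ih =>
    intro P hP
    by_cases h : ∀ g ∈ fixer G P, g = 1
    · exact ⟨P, h, by omega⟩
    push Not at h
    obtain ⟨g, hg, hg1⟩ := h
    obtain ⟨x, hx⟩ : ∃ x : X, g • x ≠ x := by
      by_contra hcon
      push Not at hcon
      exact hg1 (FaithfulSMul.eq_of_smul_eq_smul (α := X) fun x => by rw [hcon, one_smul])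
    have hle : fixer G (insert x P) ≤ fixer G P :=
      fun a ha y hy => ha y (Finset.mem_insert_of_mem hy)
    have hne : (fixer G (insert x P)).subgroupOf (fixer G P) ≠ ⊤ := by
      intro h1
      have h2 : (⟨g, hg⟩ : fixer G P) ∈ (fixer G (insert x P)).subgroupOf (fixer G P) := by
        rw [h1]; trivial
      exact hx (Subgroup.mem_subgroupOf.mp h2 x (Finset.mem_insert_self _ _))
    have hcard : 2 * Nat.card (fixer G (insert x P)) ≤ Nat.card (fixer G P) := by
      have h1 := Subgroup.card_mul_index ((fixer G (insert x P)).subgroupOf (fixer G P))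
      have h2 : Nat.card ((fixer G (insert x P)).subgroupOf (fixer G P)) =
          Nat.card (fixer G (insert x P)) := Nat.card_congr (Subgroup.subgroupOfEquivOfLe hle).toEquiv
      have h3 : ((fixer G (insert x P)).subgroupOf (fixer G P)).index ≠ 1 := by
        rw [Ne, Subgroup.index_eq_one]; exact hne
      have h4 : ((fixer G (insert x P)).subgroupOf (fixer G P)).index ≠ 0 :=
        Subgroup.index_ne_zero_of_finite
      rw [h2] at h1
      rw [← h1, mul_comm]
      exact Nat.mul_le_mul_left _ (by omega)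
    obtain ⟨B, hB, hBc⟩ := ih (insert x P) (by
      have : 2 ^ (e + 1 + 1) = 2 * 2 ^ (e + 1) := by ring
      omega)
    refine ⟨B, hB, hBc.trans ?_⟩
    have := Finset.card_insert_le x P
    omega

/-- In the natural action, a subgroup without three-cycles has a base with at most half of the
points. -/
theorem bochert (H : Subgroup (Perm Ω))
    (hno : ∀ a b c : Ω, a ≠ b → a ≠ c → b ≠ c → T a b c ∉ H) :
    ∃ B : Finset Ω, (∀ h ∈ H, (∀ b ∈ B, h b = b) → h = 1) ∧ 2 * B.card ≤ Fintype.card Ω := by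
  classical
  let F : Finset (Finset Ω) :=
    Finset.univ.filter fun B : Finset Ω => ∀ h ∈ H, (∀ b ∈ B, h b = b) → h = 1
  have hF : F.Nonempty := by
    refine ⟨Finset.univ, Finset.mem_filter.mpr ⟨Finset.mem_univ _, ?_⟩⟩
    intro h _ hh
    ext x
    rw [hh x (Finset.mem_univ _)]
    rfl
  obtain ⟨B, hBF, hmin⟩ := Finset.exists_min_image F Finset.card hF
  have hB : ∀ h ∈ H, (∀ b ∈ B, h b = b) → h = 1 := (Finset.mem_filter.mp hBF).2
  refine ⟨B, hB, ?_⟩
  by_contra hcon
  push Not at hcon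
  -- a nontrivial element fixing the complement
  have hcompl : Bᶜ ∉ F := by
    intro h
    have := hmin _ h
    rw [Finset.card_compl] at this
    have := Finset.card_le_univ B
    omega
  have hg : ∃ g ∈ H, (∀ b ∈ Bᶜ, g b = b) ∧ g ≠ 1 := by
    by_contra h
    push Not at h
    exact hcompl (Finset.mem_filter.mpr ⟨Finset.mem_univ _, h⟩)
  obtain ⟨g, hgH, hgC, hg1⟩ := hg
  obtain ⟨δ, hδ⟩ : ∃ δ, g δ ≠ δ := by
    by_contra h
    push Not at h
    exact hg1 (Equiv.ext h)
  have hδB : δ ∈ B := by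
    by_contra h
    exact hδ (hgC δ (Finset.mem_compl.mpr h))
  have herase : B.erase δ ∉ F := by
    intro h
    have h1 := hmin _ h
    rw [Finset.card_erase_of_mem hδB] at h1
    have : 0 < B.card := Finset.card_pos.mpr ⟨δ, hδB⟩
    omega
  have hh : ∃ h ∈ H, (∀ b ∈ B.erase δ, h b = b) ∧ h ≠ 1 := by
    by_contra h
    push Not at h
    exact herase (Finset.mem_filter.mpr ⟨Finset.mem_univ _, h⟩)
  obtain ⟨h, hhH, hhB, hh1⟩ := hh
  have hhδ : h δ ≠ δ := by
    intro h1
    apply hh1
    apply hB h hhH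
    intro b hb
    by_cases hbδ : b = δ
    · rw [hbδ, h1]
    · exact hhB b (Finset.mem_erase.mpr ⟨hbδ, hb⟩)
  -- the sets moved
  have hgB : ∀ x, g x ≠ x → x ∈ B := by
    intro x hx
    by_contra h2
    exact hx (hgC x (Finset.mem_compl.mpr h2))
  have hgδB : g δ ∈ B := hgB _ (fun h2 => hδ (g.injective h2))
  have hhC : ∀ x ∈ B, x ≠ δ → h x = x := fun x hx hxδ => hhB x (Finset.mem_erase.mpr ⟨hxδ, hx⟩)
  have hhδB : h δ ∉ B := by
    intro h2
    exact hhδ (h.injective (hhC _ h2 hhδ))
  have hghδ : g (h δ) = h δ := hgC _ (Finset.mem_compl.mpr hhδB)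
  have hhgδ : h (g δ) = g δ := hhC _ hgδB hδ
  -- the commutator is a three-cycle
  have hc : g * h * g⁻¹ * h⁻¹ = T δ (g δ) (h δ) := by
    have hd1 : δ ≠ g δ := Ne.symm hδ
    have hd2 : δ ≠ h δ := Ne.symm hhδ
    have hd3 : g δ ≠ h δ := fun h2 => hhδB (h2 ▸ hgδB)
    rw [mul_inv_eq_iff_eq_mul, mul_inv_eq_iff_eq_mul]
    ext x
    rw [Perm.mul_apply, Perm.mul_apply, Perm.mul_apply]
    by_cases h1 : g x = δ
    · -- then `x ∈ B`, `x ≠ δ`
      have hxδ : x ≠ δ := fun h2 => hδ (by rw [← h2, h1, h2])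
      have hxB : x ∈ B := hgB x (by rw [h1]; exact hxδ.symm)
      rw [hhC x hxB hxδ, h1, T_trd]
    by_cases h2 : x = δ
    · rw [h2, hghδ, hhgδ, T_snd hd2 hd3]
    by_cases h3 : h x = δ
    · have hxB : x ∉ B := by
        intro h4
        exact h2 ((hhC x h4 h2).symm.trans h3)
      have hgx : g x = x := hgC x (Finset.mem_compl.mpr hxB)
      rw [h3, hgx, h3, T_fst hd1 hd2]
    · -- the remaining case
      have hhx : h (g x) ≠ δ := by
        by_cases hxB : x ∈ B
        · by_cases hgx : g x = x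
          · rw [hgx]; exact h3
          · have : g x ∈ B := hgB _ (fun h4 => hgx (g.injective h4))
            rw [hhC _ this h1]; exact h1
        · rw [hgC x (Finset.mem_compl.mpr hxB)]; exact h3
      have h5 : h (g x) ≠ g δ := by
        intro h6
        rw [← hhgδ] at h6
        exact h2 (g.injective (h.injective h6))
      have h6 : h (g x) ≠ h δ := fun h7 => h1 (h.injective h7)
      rw [T_of_ne hhx h5 h6]
      by_cases hxB : x ∈ B
      · rw [hhC x hxB h2]
        by_cases hgx : g x = x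
        · rw [hgx, hhC x hxB h2]
        · have : g x ∈ B := hgB _ (fun h4 => hgx (g.injective h4))
          rw [hhC _ this h1]
      · have hgx : g x = x := hgC x (Finset.mem_compl.mpr hxB)
        have hhxB : h x ∉ B := by
          intro h7
          have h8 := h.injective (hhC (h x) h7 h3)
          rw [h8] at h7
          exact hxB h7
        rw [hgx, hgC _ (Finset.mem_compl.mpr hhxB)]
  have hmem : T δ (g δ) (h δ) ∈ H := by
    rw [← hc]
    exact H.mul_mem (H.mul_mem (H.mul_mem hgH hhH) (H.inv_mem hgH)) (H.inv_mem hhH)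
  exact hno δ (g δ) (h δ) (Ne.symm hδ) (Ne.symm hhδ) (fun h2 => hhδB (h2 ▸ hgδB)) hmem

theorem swap_mem {x : X} {k : Perm Ω} {i j : Ω} (h : k • (swap i j) • x = (swap i j) • x) :
    swap i j * k * swap i j ∈ MulAction.stabilizer (Perm Ω) x := by
  rw [MulAction.mem_stabilizer_iff, mul_smul, mul_smul, h, ← mul_smul, swap_mul_self, one_smul]

/-- The case of a point stabilizer without three-cycles. -/
theorem caseA [FaithfulSMul (Perm Ω) X] (hn : 1 ≤ Fintype.card Ω) (x : X)
    (hno : ∀ a b c : Ω, a ≠ b → a ≠ c → b ≠ c → T a b c ∉ MulAction.stabilizer (Perm Ω) x) :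
    ∃ B : Finset X, IsBase (Perm Ω) B ∧ B.card ≤ Fintype.card Ω := by
  classical
  obtain ⟨B₀, hB₀, hcard⟩ := bochert (MulAction.stabilizer (Perm Ω) x) hno
  rcases B₀.eq_empty_or_nonempty with hempty | ⟨b₀, hb₀⟩
  · refine ⟨{x}, fun g hg => ?_, by simpa using hn⟩
    exact hB₀ g (hg x (by simp)) (by rw [hempty]; simp)
  · let P : Finset X := insert x ((B₀.erase b₀).image fun b => swap b₀ b • x)
    have hP : P.card ≤ B₀.card := by
      have h1 := Finset.card_insert_le x ((B₀.erase b₀).image fun b => swap b₀ b • x)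
      have h2 : ((B₀.erase b₀).image fun b => swap b₀ b • x).card ≤ (B₀.erase b₀).card :=
        Finset.card_image_le
      rw [Finset.card_erase_of_mem hb₀] at h2
      have h3 : 0 < B₀.card := Finset.card_pos.mpr ⟨b₀, hb₀⟩
      exact h1.trans (by omega)
    have hfix : ∀ k ∈ fixer (Perm Ω) P, k b₀ = b₀ → k = 1 := by
      intro k hk hkb
      have hkx : k ∈ MulAction.stabilizer (Perm Ω) x := hk x (Finset.mem_insert_self _ _)
      apply hB₀ k hkx
      intro b hb
      by_cases hbb : b = b₀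
      · rw [hbb, hkb]
      · refine fix_of_fix _ hno (Ne.symm hbb) hkx (swap_mem (hk _ ?_)) hkb
        exact Finset.mem_insert_of_mem (Finset.mem_image.mpr
          ⟨b, Finset.mem_erase.mpr ⟨hbb, hb⟩, rfl⟩)
    have hK : Nat.card (fixer (Perm Ω) P) ≤ Fintype.card Ω := by
      rw [← Nat.card_eq_fintype_card]
      refine Nat.card_le_card_of_injective (fun k : fixer (Perm Ω) P => (k : Perm Ω) b₀) ?_
      intro k k' hkk
      have h1 := hfix _ ((fixer (Perm Ω) P).mul_mem ((fixer (Perm Ω) P).inv_mem k.2) k'.2) (by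
        change (k : Perm Ω) b₀ = (k' : Perm Ω) b₀ at hkk
        rw [Perm.mul_apply, ← hkk]
        exact (k : Perm Ω).symm_apply_apply b₀)
      exact Subtype.ext (inv_mul_eq_one.mp h1)
    have hlog : Fintype.card Ω < 2 ^ (Nat.log 2 (Fintype.card Ω) + 1) :=
      Nat.lt_pow_succ_log_self (by norm_num) _
    obtain ⟨B, hB, hBc⟩ := extend (G := Perm Ω) (Nat.log 2 (Fintype.card Ω)) P (by omega)
    refine ⟨B, hB, ?_⟩
    have hlog2 : Nat.log 2 (Fintype.card Ω) < Fintype.card Ω - Fintype.card Ω / 2 + 1 := by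
      apply Nat.log_lt_of_lt_pow (by omega)
      have h1 : Fintype.card Ω - Fintype.card Ω / 2 <
          2 ^ (Fintype.card Ω - Fintype.card Ω / 2) := Nat.lt_two_pow_self
      rw [pow_succ]
      omega
    omega

/-- The case of a point stabilizer with some but not all three-cycles. -/
theorem caseB (x : X) {a b c a' b' c' : Ω} (hab : a ≠ b) (hac : a ≠ c) (hbc : b ≠ c)
    (h : T a b c ∈ MulAction.stabilizer (Perm Ω) x) (hab' : a' ≠ b') (hac' : a' ≠ c')
    (hbc' : b' ≠ c') (h' : T a' b' c' ∉ MulAction.stabilizer (Perm Ω) x) :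
    ∃ B : Finset X, IsBase (Perm Ω) B ∧ B.card ≤ Fintype.card Ω := by
  classical
  set H := MulAction.stabilizer (Perm Ω) x with hH
  let F : Finset (Finset Ω) := Finset.univ.filter fun S : Finset Ω => Good H S
  have hF : F.Nonempty := by
    refine ⟨{a, b, c}, Finset.mem_filter.mpr ⟨Finset.mem_univ _, ?_, ?_⟩⟩
    · rw [Finset.card_insert_of_notMem (by simp [hab, hac]),
        Finset.card_insert_of_notMem (by simp [hbc]), Finset.card_singleton]
    · have m1 : T b c a ∈ H := mem_cyc H hab hac hbc h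
      have m2 : T c a b ∈ H := mem_cyc H hbc hab.symm hac.symm m1
      have m3 : T c b a ∈ H := mem_inv H h
      have m4 : T a c b ∈ H := mem_inv H m1
      have m5 : T b a c ∈ H := mem_inv H m2
      intro x hx y hy z hz hxy hxz hyz
      simp only [Finset.mem_insert, Finset.mem_singleton] at hx hy hz
      rcases hx with rfl | rfl | rfl <;> rcases hy with rfl | rfl | rfl <;>
        rcases hz with rfl | rfl | rfl <;> first | assumption | contradiction
  obtain ⟨S, hSF, hmax⟩ := Finset.exists_max_image F Finset.card hF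
  have hS : Good H S := (Finset.mem_filter.mp hSF).2
  have hnot : ∀ j, j ∉ S → ¬ Good H (insert j S) := by
    intro j hj hg
    have h1 := hmax _ (Finset.mem_filter.mpr ⟨Finset.mem_univ _, hg⟩)
    rw [Finset.card_insert_of_notMem hj] at h1
    omega
  obtain ⟨j₀, hj₀⟩ : ∃ j, j ∉ S := by
    by_contra hcon
    push Not at hcon
    exact h' (hS.2 a' (hcon _) b' (hcon _) c' (hcon _) hab' hac' hbc')
  obtain ⟨i₀, hi₀, i₁, hi₁, -, -, hi₀₁⟩ := exists_two hS.1 j₀
  let P : Finset X := insert x (S.image (fun i => swap i j₀ • x) ∪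
    (Sᶜ.erase j₀).image (fun j => swap i₀ j • x))
  refine ⟨P, ?_, ?_⟩
  · intro k hk
    have hkH : k ∈ H := hk x (Finset.mem_insert_self _ _)
    have h1 : ∀ i ∈ S, (k i = i ∧ k j₀ = j₀) ∨ (k i = j₀ ∧ k j₀ = i) := by
      intro i hi
      refine preserves H hS hi hj₀ (hnot j₀ hj₀) hkH (swap_mem (hk _ ?_))
      exact Finset.mem_insert_of_mem (Finset.mem_union_left _ (Finset.mem_image.mpr ⟨i, hi, rfl⟩))
    have hkj : k j₀ = j₀ := by
      rcases h1 i₀ hi₀ with h2 | h2
      · exact h2.2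
      · rcases h1 i₁ hi₁ with h3 | h3
        · exact h3.2
        · exact absurd (h2.2.symm.trans h3.2) hi₀₁
    have hkS : ∀ i ∈ S, k i = i := by
      intro i hi
      rcases h1 i hi with h2 | h2
      · exact h2.1
      · exfalso
        have : i = j₀ := h2.2.symm.trans hkj
        exact hj₀ (this ▸ hi)
    ext j
    rw [Perm.one_apply]
    by_cases hjS : j ∈ S
    · exact hkS j hjS
    by_cases hjj : j = j₀
    · rw [hjj, hkj]
    · have h2 := preserves H hS hi₀ hjS (hnot j hjS) hkH (swap_mem (hk _ (by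
        refine Finset.mem_insert_of_mem (Finset.mem_union_right _ (Finset.mem_image.mpr
          ⟨j, Finset.mem_erase.mpr ⟨hjj, Finset.mem_compl.mpr hjS⟩, rfl⟩)))))
      rcases h2 with h2 | h2
      · exact h2.2
      · exfalso
        rw [hkS i₀ hi₀] at h2
        exact hjS (h2.1 ▸ hi₀)
  · have h1 := Finset.card_insert_le x (S.image (fun i => swap i j₀ • x) ∪
      (Sᶜ.erase j₀).image (fun j => swap i₀ j • x))
    have h2 := Finset.card_union_le (S.image (fun i => swap i j₀ • x))
      ((Sᶜ.erase j₀).image (fun j => swap i₀ j • x))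
    have h3 : (S.image (fun i => swap i j₀ • x)).card ≤ S.card := Finset.card_image_le
    have h4 : ((Sᶜ.erase j₀).image (fun j => swap i₀ j • x)).card ≤ (Sᶜ.erase j₀).card :=
      Finset.card_image_le
    have h5 : j₀ ∈ Sᶜ := Finset.mem_compl.mpr hj₀
    rw [Finset.card_erase_of_mem h5, Finset.card_compl] at h4
    have h6 : 0 < Sᶜ.card := Finset.card_pos.mpr ⟨j₀, h5⟩
    rw [Finset.card_compl] at h6
    have h7 := Finset.card_le_univ S
    exact h1.trans (by omega)

theorem exists_base [FaithfulSMul (Perm Ω) X] (hn : 1 ≤ Fintype.card Ω) :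
    ∃ B : Finset X, IsBase (Perm Ω) B ∧ B.card ≤ Fintype.card Ω := by
  classical
  by_cases hA : ∃ x : X, ∀ a b c : Ω, a ≠ b → a ≠ c → b ≠ c →
      T a b c ∉ MulAction.stabilizer (Perm Ω) x
  · obtain ⟨x, hx⟩ := hA
    exact caseA hn x hx
  push Not at hA
  rcases isEmpty_or_nonempty X with hX | ⟨⟨x₀⟩⟩
  · refine ⟨∅, fun g _ => ?_, by simp⟩
    exact FaithfulSMul.eq_of_smul_eq_smul (α := X) fun x => (hX.false x).elim
  · obtain ⟨a, b, c, hab, hac, hbc, h⟩ := hA x₀
    have hT : T a b c ≠ 1 := by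
      intro h1
      have h2 := T_fst hab hac
      rw [h1, Perm.one_apply] at h2
      exact hab h2
    obtain ⟨x, hx⟩ : ∃ x : X, T a b c • x ≠ x := by
      by_contra hcon
      push Not at hcon
      exact hT (FaithfulSMul.eq_of_smul_eq_smul (α := X) fun x => by rw [hcon, one_smul])
    obtain ⟨a', b', c', hab', hac', hbc', h'⟩ := hA x
    exact caseB x hab' hac' hbc' h' hab hac hbc hx

end Action

/-- **Main theorem.**  For every `n ≥ 1` and every faithful action of the symmetric group `S_n` on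
a finite set, the base size is at most `n`. -/
theorem result (n : ℕ) (hn : 1 ≤ n) (X : Type) [Finite X] [MulAction (Perm (Fin n)) X]
    [FaithfulSMul (Perm (Fin n)) X] (b : ℕ) (hb : HasBaseSize (Perm (Fin n)) X b) : b ≤ n := by
  obtain ⟨B, hB, hc⟩ := exists_base (Ω := Fin n) (X := X) (by simpa using hn)
  rw [Fintype.card_fin] at hc
  exact (hb.2 B hB).trans hc

end Pool.Agent.Results.MP_3e5dca_al.BaseSizeBound
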